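import Mathlib
set_option autoImplicit false
namespace Pool.Agent.Lib_helper28

open Finset

section General

variable {F : Type*} [AddCommMonoid F]

/-- `ρ` generates the kernel congruence of `φ`. -/
def IsPres (φ : F →+ ℕ) (ρ : Set (F × F)) : Prop :=
  addConGen (fun a b => (a, b) ∈ ρ) = AddCon.ker φ

theorem IsPres.eq_of_mem {φ : F →+ ℕ} {ρ : Set (F × F)} (h : IsPres φ ρ) :
    ∀ p ∈ ρ, φ p.1 = φ p.2 := by
  intro p hp
  have h1 : addConGen (fun a b => (a, b) ∈ ρ) p.1 p.2 := AddConGen.Rel.of _ _ hp
  rw [h] at h1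
  exact h1

theorem IsPres.rel_iff {φ : F →+ ℕ} {ρ : Set (F × F)} (h : IsPres φ ρ) (x y : F) :
    addConGen (fun a b => (a, b) ∈ ρ) x y ↔ φ x = φ y := by
  rw [h]; exact Iff.rfl

theorem addConGen_degree (φ : F →+ ℕ) (ρ : Set (F × F)) (hρ : ∀ p ∈ ρ, φ p.1 = φ p.2)
    {x y : F} (h : AddConGen.Rel (fun a b => (a, b) ∈ ρ) x y) :
    addConGen (fun a b => (a, b) ∈ {p | p ∈ ρ ∧ φ p.1 ≤ φ x}) x y ∧ φ x = φ y := by
  induction h with
  | of x y hxy =>
    exact ⟨AddConGen.Rel.of _ _ ⟨hxy, le_refl _⟩, hρ _ hxy⟩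
  | refl x => exact ⟨AddCon.refl _ x, rfl⟩
  | symm h ih =>
    obtain ⟨h1, h2⟩ := ih
    refine ⟨?_, h2.symm⟩
    rw [h2] at h1
    exact AddCon.symm _ h1
  | trans h1 h2 ih1 ih2 =>
    obtain ⟨a1, a2⟩ := ih1
    obtain ⟨b1, b2⟩ := ih2
    refine ⟨?_, a2.trans b2⟩
    rw [← a2] at b1
    exact AddCon.trans _ a1 b1
  | @add x1 y1 x2 y2 h1 h2 ih1 ih2 =>
    obtain ⟨a1, a2⟩ := ih1
    obtain ⟨b1, b2⟩ := ih2
    refine ⟨?_, by rw [map_add, map_add, a2, b2]⟩
    apply AddCon.add
    · refine (AddCon.addConGen_mono (r := _) (s := _) ?_) a1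
      intro a b hab
      exact ⟨hab.1, hab.2.trans (by rw [map_add]; exact Nat.le_add_right _ _)⟩
    · refine (AddCon.addConGen_mono (r := _) (s := _) ?_) b1
      intro a b hab
      exact ⟨hab.1, hab.2.trans (by rw [map_add]; exact Nat.le_add_left _ _)⟩

/-- difference vector -/
noncomputable def dvec (p : F × F) : F →₀ ℚ := Finsupp.single p.1 1 - Finsupp.single p.2 1

/-- relations with a common factor. -/
noncomputable def common (φ : F →+ ℕ) : Submodule ℚ (F →₀ ℚ) :=
  Submodule.span ℚ {v | ∃ x y z : F, φ x = φ y ∧ z ≠ 0 ∧ v = dvec (x + z, y + z)}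

theorem dvec_mem_of_rel (φ : F →+ ℕ) (σ : Set (F × F)) (hσ : ∀ p ∈ σ, φ p.1 = φ p.2) {x y : F}
    (h : AddConGen.Rel (fun a b => (a, b) ∈ σ) x y) :
    dvec (x, y) ∈ Submodule.span ℚ (dvec '' σ) ⊔ common φ ∧ φ x = φ y := by
  induction h with
  | of x y hxy =>
    refine ⟨?_, hσ _ hxy⟩
    apply Submodule.mem_sup_left
    apply Submodule.subset_span
    exact ⟨(x, y), hxy, rfl⟩
  | refl x => 
    refine ⟨?_, rfl⟩
    simp [dvec]
  | @symm x y h ih =>
    obtain ⟨h1, h2⟩ := ih
    refine ⟨?_, h2.symm⟩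
    have : dvec (y, x) = - dvec (x, y) := by simp [dvec]
    rw [this]
    exact Submodule.neg_mem _ h1
  | @trans x y z h1 h2 ih1 ih2 =>
    obtain ⟨a1, a2⟩ := ih1
    obtain ⟨b1, b2⟩ := ih2
    refine ⟨?_, a2.trans b2⟩
    have : dvec (x, z) = dvec (x, y) + dvec (y, z) := by simp [dvec]
    rw [this]
    exact Submodule.add_mem _ a1 b1
  | @add x1 y1 x2 y2 h1 h2 ih1 ih2 =>
    obtain ⟨a1, a2⟩ := ih1
    obtain ⟨b1, b2⟩ := ih2
    refine ⟨?_, by rw [map_add, map_add, a2, b2]⟩
    have : dvec (x1 + x2, y1 + y2) = dvec (x1 + x2, y1 + x2) + dvec (x2 + y1, y2 + y1) := by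
      simp [dvec, add_comm]
    rw [this]
    refine Submodule.add_mem _ ?_ ?_
    · by_cases hx : x2 = 0
      · subst hx; simpa using a1
      · apply Submodule.mem_sup_right
        apply Submodule.subset_span
        exact ⟨x1, y1, x2, a2, hx, rfl⟩
    · by_cases hx : y1 = 0
      · subst hx; simpa using b1
      · apply Submodule.mem_sup_right
        apply Submodule.subset_span
        exact ⟨x2, y2, y1, b2, hx, rfl⟩

open Classical in
/-- indicator functional of a congruence class. -/
noncomputable def ind (c : AddCon F) (q : F) : (F →₀ ℚ) →ₗ[ℚ] ℚ :=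
  Finsupp.lsum ℚ (fun a => if c a q then LinearMap.id else 0)

open Classical in
theorem ind_single (c : AddCon F) (q a : F) :
    ind c q (Finsupp.single a 1) = if c a q then 1 else 0 := by
  unfold ind
  rw [Finsupp.lsum_single]
  split_ifs <;> simp

theorem ind_dvec_of_rel (c : AddCon F) (q : F) (p : F × F) (h : c p.1 p.2) :
    ind c q (dvec p) = 0 := by
  unfold dvec
  rw [map_sub, ind_single, ind_single]
  have hiff : c p.1 q ↔ c p.2 q := ⟨fun h1 => c.trans (c.symm h) h1, fun h1 => c.trans h h1⟩
  by_cases h1 : c p.1 q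
  · rw [if_pos h1, if_pos (hiff.1 h1), sub_self]
  · rw [if_neg h1, if_neg (fun h2 => h1 (hiff.2 h2)), sub_self]

/-- Any inclusion-minimal presentation is at most as large as any presentation. -/
theorem minimal_encard_le (φ : F →+ ℕ) (hφ : ∀ z, φ z = 0 → z = 0) (ρ σ : Set (F × F))
    (hρ : Minimal (IsPres φ) ρ) (hσ : IsPres φ σ) : ρ.encard ≤ σ.encard := by
  classical
  have hρ1 : IsPres φ ρ := hρ.1
  -- linear independence modulo `common φ`
  let u : ρ → (F →₀ ℚ) ⧸ common φ := fun p => (common φ).mkQ (dvec p.1)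
  have key : ∀ q : F × F, q ∈ ρ → 
      (∀ v ∈ common φ, ind (addConGen (fun a b => (a, b) ∈ ρ \ {q})) q.1 v = 0) ∧
      ind (addConGen (fun a b => (a, b) ∈ ρ \ {q})) q.1 (dvec q) = 1 ∧
      (∀ p ∈ ρ, p ≠ q → ind (addConGen (fun a b => (a, b) ∈ ρ \ {q})) q.1 (dvec p) = 0) := by
    intro q hq
    set c := addConGen (fun a b => (a, b) ∈ ρ \ {q}) with hc
    have hcle : c ≤ AddCon.ker φ := by
      rw [hc, AddCon.addConGen_le]
      intro a b hab
      exact hρ1.eq_of_mem _ hab.1
    refine ⟨?_, ?_, ?_⟩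
    · intro v hv
      have : common φ ≤ LinearMap.ker (ind c q.1) := by
        unfold common
        rw [Submodule.span_le]
        rintro v ⟨x, y, z, hxy, hz, rfl⟩
        change ind c q.1 _ = 0
        by_cases hdeg : φ (x + z) = φ q.1
        · apply ind_dvec_of_rel
          have h1 : addConGen (fun a b => (a, b) ∈ ρ) x y := (hρ1.rel_iff x y).2 hxy
          have h2 := (addConGen_degree φ ρ hρ1.eq_of_mem h1).1
          have h3 : φ x < φ q.1 := by
            rw [← hdeg, map_add]
            have : φ z ≠ 0 := fun h => hz (hφ z h)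
            omega
          have h4 : c x y := by
            refine (AddCon.addConGen_mono (r := _) (s := _) ?_) h2
            intro a b hab
            refine ⟨hab.1, ?_⟩
            intro heq
            have : (a, b) = q := heq
            have h5 : φ (a, b).1 ≤ φ x := hab.2
            rw [this] at h5
            omega
          exact c.add h4 (c.refl z)
        · unfold dvec
          rw [map_sub, ind_single, ind_single]
          have h1 : ¬ c (x + z) q.1 := fun h => hdeg (hcle h)
          have h2 : ¬ c (y + z) q.1 := fun h => hdeg (by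
            have : φ (y + z) = φ q.1 := hcle h
            rw [← this, map_add, map_add, hxy])
          simp [h1, h2]
      exact this hv
    · unfold dvec
      rw [map_sub, ind_single, ind_single]
      have h1 : c q.1 q.1 := c.refl _
      have h2 : ¬ c q.2 q.1 := by
        intro h
        have h3 : IsPres φ (ρ \ {q}) := by
          unfold IsPres
          apply le_antisymm hcle
          rw [← hρ1, AddCon.addConGen_le]
          intro a b hab
          by_cases hq' : (a, b) = q
          · rw [← hq'] at h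
            exact c.symm h
          · exact AddConGen.Rel.of _ _ ⟨hab, hq'⟩
        have h4 := hρ.2 h3 Set.sdiff_subset
        exact (h4 hq).2 rfl
      simp [h1, h2]
    · intro p hp hpq
      apply ind_dvec_of_rel
      exact AddConGen.Rel.of _ _ ⟨hp, hpq⟩
  have hli : LinearIndependent ℚ u := by
    rw [linearIndependent_iff']
    intro s g hg q hq
    have h1 : ∑ i ∈ s, g i • dvec i.1 ∈ common φ := by
      rw [← Submodule.ker_mkQ (common φ), LinearMap.mem_ker, map_sum]
      simpa [u] using hg
    obtain ⟨k1, k2, k3⟩ := key q.1 q.2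
    have h2 := k1 _ h1
    rw [map_sum] at h2
    rw [Finset.sum_eq_single q] at h2
    · rw [map_smul, k2] at h2
      simpa using h2
    · intro b hb hbq
      rw [map_smul, k3 b.1 b.2 (fun h => hbq (Subtype.ext h))]
      simp
    · intro h; exact absurd hq h
  by_cases hfin : σ.Finite
  · have hfin2 : ((common φ).mkQ '' (dvec '' σ)).Finite := (hfin.image _).image _
    haveI : Fintype ((common φ).mkQ '' (dvec '' σ)) := hfin2.fintype
    have hspan : Set.range u ≤ Submodule.span ℚ ((common φ).mkQ '' (dvec '' σ)) := by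
      rintro _ ⟨p, rfl⟩
      have h1 : addConGen (fun a b => (a, b) ∈ σ) p.1.1 p.1.2 :=
        (hσ.rel_iff _ _).2 (hρ1.eq_of_mem _ p.2)
      have h2 := (dvec_mem_of_rel φ σ hσ.eq_of_mem h1).1
      obtain ⟨a, ha, b, hb, hab⟩ := Submodule.mem_sup.1 h2
      have h3 : u p = (common φ).mkQ a := by
        change (common φ).mkQ (dvec p.1) = _
        have : dvec p.1 = a + b := hab.symm
        rw [this, map_add]
        have : (common φ).mkQ b = 0 := by
          rw [← LinearMap.mem_ker, Submodule.ker_mkQ]; exact hb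
        rw [this, add_zero]
      rw [h3]
      change _ ∈ Submodule.span ℚ ((common φ).mkQ '' (dvec '' σ))
      rw [← Submodule.map_span]
      exact Submodule.mem_map_of_mem ha
    have hcard := linearIndependent_le_span' u hli _ hspan
    have hρfin : Finite ρ := by
      rw [← Cardinal.lt_aleph0_iff_finite]
      exact lt_of_le_of_lt hcard (Cardinal.natCast_lt_aleph0)
    have hρfin' : ρ.Finite := hρfin
    rw [hρfin'.encard_eq_coe_toFinset_card]
    have h5 : ((common φ).mkQ '' (dvec '' σ)).encard ≤ σ.encard :=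
      (Set.encard_image_le _ _).trans (Set.encard_image_le _ _)
    refine le_trans ?_ h5
    rw [Set.encard_eq_coe_toFinset_card]
    haveI : Fintype ρ := hρfin'.fintype
    rw [Cardinal.mk_fintype] at hcard
    have h6 : Fintype.card ρ ≤ Fintype.card ((common φ).mkQ '' (dvec '' σ)) := by exact_mod_cast hcard
    rw [Set.toFinset_card]
    have h7 : hρfin'.toFinset.card = Fintype.card ρ := by
      rw [← Set.toFinset_card]
      congr 1
      ext x
      simp
    rw [h7]
    exact_mod_cast h6
  · have : σ.encard = ⊤ := Set.encard_eq_top_iff.2 hfin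
    rw [this]
    exact le_top

end General
end Pool.Agent.Lib_helper28
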