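import Pool.Agent.Lib_helper28.Staircase
set_option autoImplicit false
namespace Pool.Agent.Lib_helper28

open Finset

section Perturb

variable {n : ℕ}

/-- base-`B` weights separate bounded vectors. -/
theorem base_inj {B : ℕ} {a b : Fin n → ℕ} (ha : ∀ i, a i < B) (hb : ∀ i, b i < B)
    (h : wt (fun i : Fin n => B ^ (i : ℕ)) a = wt (fun i : Fin n => B ^ (i : ℕ)) b) : a = b := by
  have h1 : (finFunctionFinEquiv (fun i => (⟨a i, ha i⟩ : Fin B)) : ℕ) =
      (finFunctionFinEquiv (fun i => (⟨b i, hb i⟩ : Fin B)) : ℕ) := by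
    rw [finFunctionFinEquiv_apply, finFunctionFinEquiv_apply]
    exact h
  have h2 := finFunctionFinEquiv.injective (Fin.ext h1)
  funext i
  have h3 := congrFun h2 i
  exact congrArg Fin.val h3

theorem wt_le_wt (w : Fin n → ℕ) {a b : Fin n → ℕ} (h : a ≤ b) : wt w a ≤ wt w b := by
  rw [wt_apply, wt_apply]
  exact Finset.sum_le_sum fun i _ => Nat.mul_le_mul_right _ (h i)

/-- uniform bound for all weight-minimal vectors. -/
theorem exists_bound (m : ℕ) (hm : 0 < m) (w : Fin n → ℕ) (hw : ∀ i, 0 < w i) :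
    ∃ K : ℕ, ∀ a : Fin n → ℕ, (∀ b, wt w b ≡ wt w a [MOD m] → wt w a ≤ wt w b) →
      ∀ i, a i ≤ K := by
  refine ⟨(Finset.range m).sup (fun r => sInf {x | ∃ a : Fin n → ℕ, wt w a = x ∧ x % m = r}), ?_⟩
  intro a ha i
  refine (le_wt hw a i).trans ?_
  have h1 : wt w a ≤ sInf {x | ∃ b : Fin n → ℕ, wt w b = x ∧ x % m = wt w a % m} := by
    have hne : {x | ∃ b : Fin n → ℕ, wt w b = x ∧ x % m = wt w a % m}.Nonempty :=
      ⟨wt w a, a, rfl, rfl⟩
    obtain ⟨b, hb1, hb2⟩ := Nat.sInf_mem hne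
    rw [← hb1]
    apply ha
    rw [hb1]
    exact hb2
  refine h1.trans ?_
  exact Finset.le_sup (f := fun r => sInf {x | ∃ a : Fin n → ℕ, wt w a = x ∧ x % m = r})
    (Finset.mem_range.2 (Nat.mod_lt _ hm))

theorem exists_generic (m : ℕ) (hm : 0 < m) (w : Fin n → ℕ) (hw : ∀ i, 0 < w i) :
    ∃ w' : Fin n → ℕ, (∀ i, m < w' i) ∧ (∀ i, w' i ≡ w i [MOD m]) ∧
      (∀ a, ∃ o ∈ Osat m w', wt w' o ≡ wt w' a [MOD m]) ∧
      (∀ a ∈ Osat m w', ∀ b, wt w b ≡ wt w a [MOD m] → wt w a ≤ wt w b) ∧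
      (∀ c ∈ Cmin m w', ∀ c' ∈ Cmin m w', wt w' c = wt w' c' → c = c') := by
  obtain ⟨K, hK⟩ := exists_bound m hm w hw
  set B := K + 2 with hB
  set v : Fin n → ℕ := fun i => B ^ (i : ℕ) with hv
  set V := wt v (fun _ => K + 1) + 1 with hV
  set M := 1 + m * V with hM
  set w' : Fin n → ℕ := fun i => M * w i + m * v i with hw'
  have hvpos : ∀ i, 0 < v i := fun i => by rw [hv]; positivity
  have hwt : ∀ a, wt w' a = M * wt w a + m * wt v a := by
    intro a
    simp only [wt_apply, hw', Finset.mul_sum, ← Finset.sum_add_distrib]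
    apply Finset.sum_congr rfl
    intro i _
    ring
  have hmod : ∀ i, w' i ≡ w i [MOD m] := by
    intro i
    have : w' i = w i + m * (V * w i + v i) := by rw [hw', hM]; ring
    rw [this]
    unfold Nat.ModEq
    simp
  have hbox : ∀ a : Fin n → ℕ, (∀ i, a i ≤ K + 1) → m * wt v a < M := by
    intro a ha
    have h1 : wt v a ≤ wt v (fun _ => K + 1) := wt_le_wt v ha
    rw [hM, hV]
    have := Nat.mul_le_mul_left m h1
    nlinarith
  -- minimal for w' implies minimal for w
  have hmin : ∀ a, (∀ b, wt w' b ≡ wt w' a [MOD m] → wt w' a ≤ wt w' b) →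
      (∀ b, wt w b ≡ wt w a [MOD m] → wt w a ≤ wt w b) := by
    intro a ha
    -- choose w-minimal element in the class
    have hne : {x | ∃ b : Fin n → ℕ, wt w b = x ∧ x ≡ wt w a [MOD m]}.Nonempty :=
      ⟨wt w a, a, rfl, rfl⟩
    obtain ⟨o, ho1, ho2⟩ := Nat.sInf_mem hne
    have homin : ∀ b, wt w b ≡ wt w a [MOD m] → wt w o ≤ wt w b := by
      intro b hb
      rw [ho1]
      exact Nat.sInf_le ⟨b, rfl, hb⟩
    have ho2' : wt w o ≡ wt w a [MOD m] := by rw [ho1]; exact ho2
    have hobox : ∀ i, o i ≤ K := hK o (fun b hb => homin b (hb.trans ho2'))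
    have h1 := hbox o (fun i => (hobox i).trans (Nat.le_succ _))
    have h2 := ha o (((wt_modEq hmod o).trans ho2').trans (wt_modEq hmod a).symm)
    rw [hwt, hwt] at h2
    have h3 : wt w a ≤ wt w o := by
      by_contra hcon
      push Not at hcon
      have : M * (wt w o + 1) ≤ M * wt w a := Nat.mul_le_mul_left _ hcon
      nlinarith
    intro b hb
    exact h3.trans (homin b hb)
  have hinj : ∀ a b : Fin n → ℕ, (∀ i, a i ≤ K + 1) → (∀ i, b i ≤ K + 1) →
      wt w' a = wt w' b → a = b := by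
    intro a b ha hb h
    rw [hwt, hwt] at h
    have h1 := hbox a ha
    have h2 := hbox b hb
    have h3 : wt w a = wt w b := by
      rcases lt_trichotomy (wt w a) (wt w b) with hlt | heq | hgt
      · have : M * (wt w a + 1) ≤ M * wt w b := Nat.mul_le_mul_left _ hlt
        nlinarith
      · exact heq
      · have : M * (wt w b + 1) ≤ M * wt w a := Nat.mul_le_mul_left _ hgt
        nlinarith
    rw [h3] at h
    have h4 : m * wt v a = m * wt v b := by omega
    have h5 : wt v a = wt v b := Nat.eq_of_mul_eq_mul_left hm h4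
    exact base_inj (fun i => by have := ha i; omega) (fun i => by have := hb i; omega) h5
  have hO : ∀ a ∈ Osat m w', (∀ b, wt w b ≡ wt w a [MOD m] → wt w a ≤ wt w b) := by
    intro a ha
    apply hmin
    intro b hb
    by_cases hba : b = a
    · rw [hba]
    · exact (ha b hb hba).le
  refine ⟨w', ?_, hmod, ?_, hO, ?_⟩
  · intro i
    have h1 : w' i = w i + m * (V * w i + v i) := by rw [hw', hM]; ring
    rw [h1]
    have h2 := hw i
    have h3 := hvpos i
    have : 1 ≤ V * w i + v i := by omega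
    nlinarith
  · intro a
    have hne : {x | ∃ b : Fin n → ℕ, wt w' b = x ∧ x ≡ wt w' a [MOD m]}.Nonempty :=
      ⟨wt w' a, a, rfl, rfl⟩
    obtain ⟨o, ho1, ho2⟩ := Nat.sInf_mem hne
    have homin : ∀ b, wt w' b ≡ wt w' a [MOD m] → wt w' o ≤ wt w' b := by
      intro b hb
      rw [ho1]
      exact Nat.sInf_le ⟨b, rfl, hb⟩
    have ho2' : wt w' o ≡ wt w' a [MOD m] := by rw [ho1]; exact ho2
    refine ⟨o, ?_, ho2'⟩
    intro b hb hne
    rcases Nat.lt_or_eq_of_le (homin b (hb.trans ho2')) with h | h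
    · exact h
    · exfalso
      apply hne
      have hobox : ∀ i, o i ≤ K := hK o (hmin o (fun b hb => homin b (hb.trans ho2')))
      have hbbox : ∀ i, b i ≤ K := hK b (hmin b (fun d hd => by
        rw [← h]; exact homin d ((hd.trans hb).trans ho2')))
      exact (hinj o b (fun i => (hobox i).trans (Nat.le_succ _))
        (fun i => (hbbox i).trans (Nat.le_succ _)) h).symm
  · intro c hc c' hc' h
    have hbx : ∀ c ∈ Cmin m w', ∀ i, c i ≤ K + 1 := by
      intro c hc i
      rcases Nat.eq_zero_or_pos (c i) with h0 | h0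
      · omega
      · have := hK _ (hO _ (hc.2 i h0)) i
        simp only [Pi.sub_apply, Pi.single_eq_same] at this
        omega
    exact hinj c c' (hbx c hc) (hbx c' hc') h

end Perturb
end Pool.Agent.Lib_helper28
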