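import Pool.Agent.Lib_helper28.MinPres
set_option autoImplicit false
namespace Pool.Agent.Lib_helper28

open Finset

section Stair

variable {n : ℕ}

/-- weighted degree of an exponent vector. -/
def wt (w : Fin n → ℕ) : (Fin n → ℕ) →+ ℕ where
  toFun a := ∑ i, a i * w i
  map_zero' := by simp
  map_add' a b := by simp [add_mul, Finset.sum_add_distrib]

theorem wt_apply (w a : Fin n → ℕ) : wt w a = ∑ i, a i * w i := rfl

theorem wt_single (w : Fin n → ℕ) (i : Fin n) (k : ℕ) : wt w (Pi.single i k) = k * w i := by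
  rw [wt_apply, Finset.sum_eq_single i]
  · simp
  · intro b _ hb; simp [Pi.single_eq_of_ne hb]
  · simp

/-- factorization map. -/
def psi (m : ℕ) (w : Fin n → ℕ) : ℕ × (Fin n → ℕ) →+ ℕ where
  toFun p := p.1 * m + wt w p.2
  map_zero' := by simp
  map_add' p q := by simp only [Prod.fst_add, Prod.snd_add, map_add]; ring

theorem psi_apply (m : ℕ) (w : Fin n → ℕ) (p : ℕ × (Fin n → ℕ)) :
    psi m w p = p.1 * m + wt w p.2 := rfl

theorem le_wt {w : Fin n → ℕ} (hw : ∀ i, 0 < w i) (a : Fin n → ℕ) (i : Fin n) : a i ≤ wt w a := by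
  rw [wt_apply]
  calc a i ≤ a i * w i := Nat.le_mul_of_pos_right _ (hw i)
    _ ≤ ∑ i, a i * w i := Finset.single_le_sum (f := fun i => a i * w i)
        (fun _ _ => Nat.zero_le _) (Finset.mem_univ i)

theorem wt_ne_zero {w : Fin n → ℕ} (hw : ∀ i, 0 < w i) {a : Fin n → ℕ} (h : wt w a = 0) :
    a = 0 := by
  funext i
  have := le_wt hw a i
  simp only [Pi.zero_apply]
  omega

theorem psi_ne_zero {m : ℕ} (hm : 0 < m) {w : Fin n → ℕ} (hw : ∀ i, 0 < w i)
    (p : ℕ × (Fin n → ℕ)) (h : psi m w p = 0) : p = 0 := by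
  rw [psi_apply] at h
  have h1 : p.1 * m = 0 := by omega
  have h2 : wt w p.2 = 0 := by omega
  have h3 : p.1 = 0 := by
    rcases Nat.mul_eq_zero.1 h1 with h | h
    · exact h
    · omega
  exact Prod.ext h3 (wt_ne_zero hw h2)

/-- the staircase. -/
def Osat (m : ℕ) (w : Fin n → ℕ) : Set (Fin n → ℕ) :=
  {a | ∀ b, wt w b ≡ wt w a [MOD m] → b ≠ a → wt w a < wt w b}

/-- minimal exponent vectors outside the staircase. -/
def Cmin (m : ℕ) (w : Fin n → ℕ) : Set (Fin n → ℕ) :=
  {c | c ∉ Osat m w ∧ ∀ i, 0 < c i → c - Pi.single i 1 ∈ Osat m w}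

theorem O_mono {m : ℕ} {w a a' : Fin n → ℕ} (ha : a ∈ Osat m w) (h : a' ≤ a) :
    a' ∈ Osat m w := by
  intro b hb hne
  obtain ⟨d, rfl⟩ : ∃ d, a = a' + d := ⟨a - a', by rw [add_tsub_cancel_of_le h]⟩
  have h1 := ha (b + d) (by
    rw [map_add, map_add]; exact Nat.ModEq.add_right _ hb) (by
      intro h; exact hne (add_right_cancel h))
  rw [map_add, map_add] at h1
  omega

theorem O_unique {m : ℕ} {w a b : Fin n → ℕ} (ha : a ∈ Osat m w) (hb : b ∈ Osat m w)
    (h : wt w a ≡ wt w b [MOD m]) : a = b := by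
  by_contra hne
  have h1 := ha b h.symm (fun h => hne h.symm)
  have h2 := hb a h hne
  omega

theorem zero_mem_O {m : ℕ} {w : Fin n → ℕ} (hw : ∀ i, 0 < w i) : (0 : Fin n → ℕ) ∈ Osat m w := by
  intro b _ hne
  rw [map_zero]
  rcases Nat.eq_zero_or_pos (wt w b) with h | h
  · exact absurd (wt_ne_zero hw h) hne
  · exact h

theorem sub_single_add {c : Fin n → ℕ} {i : Fin n} (h : 0 < c i) :
    c - Pi.single i 1 + Pi.single i 1 = c := by
  apply tsub_add_cancel_of_le
  intro j
  by_cases hj : j = i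
  · subst hj; rw [Pi.single_eq_same]; exact h
  · rw [Pi.single_eq_of_ne hj]; exact Nat.zero_le _

theorem sum_sub_single {c : Fin n → ℕ} {i : Fin n} (h : 0 < c i) :
    ∑ j, (c - Pi.single i 1 : Fin n → ℕ) j + 1 = ∑ j, c j := by
  conv_rhs => rw [← sub_single_add h]
  simp only [Pi.add_apply, Finset.sum_add_distrib]
  congr 1
  rw [Finset.sum_eq_single i]
  · simp
  · intro b _ hb; exact Pi.single_eq_of_ne hb _
  · simp

theorem exists_C_le {m : ℕ} {w : Fin n → ℕ} : ∀ (N : ℕ) (b : Fin n → ℕ), ∑ i, b i = N →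
    b ∉ Osat m w → ∃ c ∈ Cmin m w, c ≤ b := by
  intro N
  induction N with
  | zero =>
    intro b hb hO
    refine ⟨b, ⟨hO, ?_⟩, le_refl _⟩
    intro i hi
    have := (Finset.sum_eq_zero_iff.1 hb) i (Finset.mem_univ i)
    omega
  | succ N ih =>
    intro b hb hO
    by_cases hC : ∀ i, 0 < b i → b - Pi.single i 1 ∈ Osat m w
    · exact ⟨b, ⟨hO, hC⟩, le_refl _⟩
    · push Not at hC
      obtain ⟨i, hi, hi'⟩ := hC
      have h1 : ∑ j, (b - Pi.single i 1 : Fin n → ℕ) j = N := by
        have := sum_sub_single hi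
        omega
      obtain ⟨c, hc, hcb⟩ := ih _ h1 hi'
      exact ⟨c, hc, hcb.trans tsub_le_self⟩

theorem C_ne_zero {m : ℕ} {w : Fin n → ℕ} (hw : ∀ i, 0 < w i) {c : Fin n → ℕ}
    (hc : c ∈ Cmin m w) : ∃ i, 0 < c i := by
  by_contra h
  push Not at h
  have : c = 0 := by funext i; have := h i; simp only [Pi.zero_apply]; omega
  exact hc.1 (this ▸ zero_mem_O hw)

theorem wt_modEq {m : ℕ} {w w' : Fin n → ℕ} (h : ∀ i, w' i ≡ w i [MOD m]) (a : Fin n → ℕ) :
    wt w' a ≡ wt w a [MOD m] := by
  rw [wt_apply, wt_apply]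
  unfold Nat.ModEq
  rw [Finset.sum_nat_mod, Finset.sum_nat_mod (f := fun i => a i * w i)]
  congr 1
  apply Finset.sum_congr rfl
  intro i _
  exact Nat.ModEq.mul_left _ (h i)

/-- C is finite with at most `m * n` elements. -/
theorem C_encard_le {m : ℕ} (hm : 0 < m) {w : Fin n → ℕ} (hw : ∀ i, 0 < w i) :
    (Cmin m w).encard ≤ (m * n : ℕ) := by
  classical
  have hO : (Osat m w).encard ≤ (m : ℕ) := by
    have h1 : Set.InjOn (fun a : Fin n → ℕ => wt w a % m) (Osat m w) := by
      intro a ha b hb hab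
      exact O_unique ha hb hab
    have h2 : Set.MapsTo (fun a : Fin n → ℕ => wt w a % m) (Osat m w) (Set.Iio m) := by
      intro a _
      exact Nat.mod_lt _ hm
    have h3 := Set.encard_le_encard_of_injOn h2 h1
    refine h3.trans ?_
    rw [← Finset.coe_range, Set.encard_coe_eq_coe_finsetCard, Finset.card_range]
  have h1 : Cmin m w ⊆ (fun p : (Fin n → ℕ) × Fin n => p.1 + Pi.single p.2 1) ''
      (Osat m w ×ˢ Set.univ) := by
    intro c hc
    obtain ⟨i, hi⟩ := C_ne_zero hw hc
    exact ⟨(c - Pi.single i 1, i), ⟨hc.2 i hi, Set.mem_univ _⟩, sub_single_add hi⟩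
  calc (Cmin m w).encard ≤ _ := Set.encard_le_encard h1
    _ ≤ (Osat m w ×ˢ (Set.univ : Set (Fin n))).encard := Set.encard_image_le _ _
    _ = (Osat m w).encard * (Set.univ : Set (Fin n)).encard := Set.encard_prod
    _ ≤ (m : ℕ) * (n : ℕ) := by
        apply mul_le_mul' hO
        rw [Set.encard_univ]
        simp
    _ = (m * n : ℕ) := by push_cast; rfl

/-- The presentation coming from a staircase. -/
def presT (m : ℕ) (w w' : Fin n → ℕ) : Set ((ℕ × (Fin n → ℕ)) × (ℕ × (Fin n → ℕ))) :=
  {p | ∃ c ∈ Cmin m w', ∃ o ∈ Osat m w', ∃ k, wt w' o ≡ wt w' c [MOD m] ∧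
    wt w c = k * m + wt w o ∧ p = ((0, c), (k, o))}

theorem presT_encard_le {m : ℕ} (hm : 0 < m) (w w' : Fin n → ℕ) :
    (presT m w w').encard ≤ (Cmin m w').encard := by
  have h1 : Set.MapsTo (fun p : (ℕ × (Fin n → ℕ)) × (ℕ × (Fin n → ℕ)) => p.1.2) (presT m w w')
      (Cmin m w') := by
    rintro p ⟨c, hc, o, ho, k, h1, h2, rfl⟩
    exact hc
  apply Set.encard_le_encard_of_injOn h1
  rintro p ⟨c, hc, o, ho, k, h1, h2, rfl⟩ q ⟨c', hc', o', ho', k', h1', h2', rfl⟩ h
  have h : c = c' := h
  subst h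
  have h3 : o = o' := O_unique ho ho' (h1.trans h1'.symm)
  subst h3
  have h4 : k * m = k' * m := by omega
  have h5 : k = k' := Nat.eq_of_mul_eq_mul_right hm h4
  subst h5
  rfl

theorem presT_isPres {m : ℕ} (hm : 0 < m) {w w' : Fin n → ℕ}
    (hmod : ∀ i, w' i ≡ w i [MOD m])
    (H : ∀ a, ∃ o ∈ Osat m w', wt w' o ≡ wt w' a [MOD m])
    (hmin : ∀ a ∈ Osat m w', ∀ b, wt w b ≡ wt w a [MOD m] → wt w a ≤ wt w b) :
    IsPres (psi m w) (presT m w w') := by
  unfold IsPres
  apply le_antisymm
  · rw [AddCon.addConGen_le]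
    rintro a b ⟨c, hc, o, ho, k, h1, h2, h3⟩
    rw [Prod.mk.injEq] at h3
    obtain ⟨rfl, rfl⟩ := h3
    change psi m w _ = psi m w _
    rw [psi_apply, psi_apply]
    simp only [zero_mul, zero_add]
    exact h2
  · set c0 := addConGen (fun a b => (a, b) ∈ presT m w w') with hc0
    have hle : c0 ≤ AddCon.ker (psi m w) := by
      rw [hc0, AddCon.addConGen_le]
      rintro a b ⟨c, hc, o, ho, k, h1, h2, h3⟩
      rw [Prod.mk.injEq] at h3
      obtain ⟨rfl, rfl⟩ := h3
      change psi m w _ = psi m w _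
      rw [psi_apply, psi_apply]
      simp only [zero_mul, zero_add]
      exact h2
    have key : ∀ (N : ℕ) (a : Fin n → ℕ) (k : ℕ), wt w' a = N →
        ∃ K o, o ∈ Osat m w' ∧ c0 (k, a) (K, o) := by
      intro N
      induction N using Nat.strong_induction_on with
      | _ N ih =>
        intro a k hN
        by_cases ha : a ∈ Osat m w'
        · exact ⟨k, a, ha, c0.refl _⟩
        · obtain ⟨c, hc, hca⟩ := exists_C_le _ a rfl ha
          obtain ⟨o, ho, hoc⟩ := H c
          have hoc' : wt w o ≡ wt w c [MOD m] :=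
            ((wt_modEq hmod o).symm.trans hoc).trans (wt_modEq hmod c)
          have hle2 : wt w o ≤ wt w c := hmin o ho c hoc'.symm
          obtain ⟨j, hj⟩ := (Nat.modEq_iff_dvd' hle2).1 hoc'
          have hrel : c0 (0, c) (j, o) := by
            apply AddConGen.Rel.of
            exact ⟨c, hc, o, ho, j, hoc, by rw [mul_comm]; omega, rfl⟩
          have hlt : wt w' o < wt w' c := ho c hoc.symm (fun h => hc.1 (h ▸ ho))
          have hsplit : a = c + (a - c) := by rw [add_tsub_cancel_of_le hca]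
          have hrel2 : c0 (k, a) (j + k, o + (a - c)) := by
            have := c0.add hrel (c0.refl (k, a - c))
            have e1 : ((0, c) : ℕ × (Fin n → ℕ)) + (k, a - c) = (k, a) := by
              rw [Prod.mk_add_mk, zero_add, ← hsplit]
            rw [e1, Prod.mk_add_mk] at this
            exact this
          have hlt2 : wt w' (o + (a - c)) < N := by
            rw [← hN]
            conv_rhs => rw [hsplit]
            rw [map_add, map_add]
            omega
          obtain ⟨K, o', ho', hK⟩ := ih _ hlt2 (o + (a - c)) (j + k) rfl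
          exact ⟨K, o', ho', c0.trans hrel2 hK⟩
    intro x y hxy
    have hxy : psi m w x = psi m w y := hxy
    obtain ⟨K, o, ho, h1⟩ := key _ x.2 x.1 rfl
    obtain ⟨K', o', ho', h2⟩ := key _ y.2 y.1 rfl
    have h3 : psi m w x = psi m w (K, o) := hle h1
    have h4 : psi m w y = psi m w (K', o') := hle h2
    have h5 : psi m w (K, o) = psi m w (K', o') := by rw [← h3, ← h4, hxy]
    rw [psi_apply, psi_apply] at h5
    simp only at h5
    have h6 : wt w o ≡ wt w o' [MOD m] := by
      have : (K * m + wt w o) % m = (K' * m + wt w o') % m := by rw [h5]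
      rw [Nat.mul_comm K, Nat.mul_comm K', Nat.mul_add_mod, Nat.mul_add_mod] at this
      exact this
    have h7 : o = o' := O_unique ho ho'
      (((wt_modEq hmod o).trans h6).trans (wt_modEq hmod o').symm)
    subst h7
    have h8 : K = K' := Nat.eq_of_mul_eq_mul_right hm (by omega)
    subst h8
    exact c0.trans h1 (c0.symm h2)

/-- lower bound. -/
theorem C_encard_le_of_isPres {m : ℕ} (hm : 0 < m) {w' : Fin n → ℕ} (hw : ∀ i, 0 < w' i)
    (H : ∀ a, ∃ o ∈ Osat m w', wt w' o ≡ wt w' a [MOD m])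
    (hdist : ∀ c ∈ Cmin m w', ∀ c' ∈ Cmin m w', wt w' c = wt w' c' → c = c')
    (ρ : Set ((ℕ × (Fin n → ℕ)) × (ℕ × (Fin n → ℕ)))) (hρ : IsPres (psi m w') ρ) :
    (Cmin m w').encard ≤ ρ.encard := by
  classical
  have key : ∀ c ∈ Cmin m w', ∃ p ∈ ρ, psi m w' p.1 = wt w' c ∧
      (p.1 = (0, c) ∨ p.2 = (0, c)) := by
    intro c hc
    by_contra hcon
    push Not at hcon
    -- uniqueness of factorizations below c
    have huniq : ∀ a, a ≤ c → a ≠ c → ∀ y, psi m w' y = wt w' a → y = (0, a) := by
      intro a hac hne y hy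
      have haO : a ∈ Osat m w' := by
        have : ∃ i, a i < c i := by
          by_contra hh
          push Not at hh
          exact hne (le_antisymm hac hh)
        obtain ⟨i, hi⟩ := this
        refine O_mono (hc.2 i (by omega)) ?_
        intro j
        have := hac j
        by_cases hj : j = i
        · subst hj; simp only [Pi.sub_apply, Pi.single_eq_same]; omega
        · simp only [Pi.sub_apply, Pi.single_eq_of_ne hj]; omega
      rw [psi_apply] at hy
      have h1 : wt w' y.2 ≡ wt w' a [MOD m] := by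
        have : (y.1 * m + wt w' y.2) % m = wt w' a % m := by rw [hy]
        rw [Nat.mul_comm y.1, Nat.mul_add_mod] at this
        exact this
      by_cases hya : y.2 = a
      · have h2 : y.1 * m = 0 := by rw [hya] at hy; omega
        have h3 : y.1 = 0 := by
          rcases Nat.mul_eq_zero.1 h2 with h | h
          · exact h
          · omega
        exact Prod.ext h3 hya
      · have := haO y.2 h1 hya
        omega
    let D : AddCon (ℕ × (Fin n → ℕ)) :=
      { r := fun x y => psi m w' x = psi m w' y ∧ (x = (0, c) ↔ y = (0, c))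
        iseqv := ⟨fun x => ⟨rfl, Iff.rfl⟩, fun h => ⟨h.1.symm, h.2.symm⟩,
          fun h1 h2 => ⟨h1.1.trans h2.1, h1.2.trans h2.2⟩⟩
        add' := by
          have half : ∀ x y x' y' : ℕ × (Fin n → ℕ), psi m w' x = psi m w' y →
              (x = (0, c) ↔ y = (0, c)) → psi m w' x' = psi m w' y' →
              (x' = (0, c) ↔ y' = (0, c)) → x + x' = (0, c) → y + y' = (0, c) := by
            intro x y x' y' h1 h2 h3 h4 h5
            have hx1 : x.1 + x'.1 = 0 := congrArg Prod.fst h5
            have hx2 : x.2 + x'.2 = c := congrArg Prod.snd h5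
            have hx0 : x.1 = 0 := by omega
            have hx0' : x'.1 = 0 := by omega
            by_cases hz : x.2 = c
            · have hx'0 : x'.2 = 0 := by
                rw [hz] at hx2
                exact add_eq_left.1 hx2
              have hx'z : x' = 0 := Prod.ext hx0' hx'0
              have hy'z : y' = 0 := psi_ne_zero hm hw _ (by rw [← h3, hx'z, map_zero])
              rw [hy'z, add_zero]
              exact h2.1 (Prod.ext hx0 hz)
            · by_cases hz' : x'.2 = c
              · have hxx0 : x.2 = 0 := by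
                  rw [hz'] at hx2
                  exact add_eq_right.1 hx2
                have hxz : x = 0 := Prod.ext hx0 hxx0
                have hyz : y = 0 := psi_ne_zero hm hw _ (by rw [← h1, hxz, map_zero])
                rw [hyz, zero_add]
                exact h4.1 (Prod.ext hx0' hz')
              · have hle1 : x.2 ≤ c := by rw [← hx2]; exact le_self_add
                have hle2 : x'.2 ≤ c := by rw [← hx2]; exact le_add_self
                have e1 : y = (0, x.2) := huniq x.2 hle1 hz y (by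
                  rw [← h1, psi_apply, hx0]; simp)
                have e2 : y' = (0, x'.2) := huniq x'.2 hle2 hz' y' (by
                  rw [← h3, psi_apply, hx0']; simp)
                rw [e1, e2, Prod.mk_add_mk, hx2]
          intro x y x' y' h1 h2
          refine ⟨by rw [map_add, map_add, h1.1, h2.1], ?_, ?_⟩
          · exact half x y x' y' h1.1 h1.2 h2.1 h2.2
          · exact half y x y' x' h1.1.symm h1.2.symm h2.1.symm h2.2.symm }
    have hle : addConGen (fun a b => (a, b) ∈ ρ) ≤ D := by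
      rw [AddCon.addConGen_le]
      intro a b hab
      refine ⟨hρ.eq_of_mem _ hab, ?_, ?_⟩
      · intro ha
        exact absurd ha (hcon _ hab (by simp [ha, psi_apply])).1
      · intro hb
        have := hρ.eq_of_mem _ hab
        exact absurd hb (hcon _ hab (by rw [this]; simp [hb, psi_apply])).2
    obtain ⟨o, ho, hoc⟩ := H c
    have hle2 : wt w' o ≤ wt w' c := (ho c hoc.symm (fun h => hc.1 (h ▸ ho))).le
    obtain ⟨j, hj⟩ := (Nat.modEq_iff_dvd' hle2).1 hoc
    have h1 : addConGen (fun a b => (a, b) ∈ ρ) (0, c) (j, o) := by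
      rw [hρ.rel_iff, psi_apply, psi_apply]
      simp only [zero_mul, zero_add]
      rw [mul_comm]
      omega
    have h2 := (hle h1).2.1 rfl
    have h3 : o = c := congrArg Prod.snd h2
    exact hc.1 (h3 ▸ ho)
  choose! f hf1 hf2 hf3 using key
  apply Set.encard_le_encard_of_injOn (f := f) (fun c hc => hf1 c hc)
  intro c hc c' hc' h
  apply hdist c hc c' hc'
  rw [← hf2 c hc, ← hf2 c' hc', h]

end Stair
end Pool.Agent.Lib_helper28
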