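import Pool.Agent.Lib_helper28.MinPres
set_option autoImplicit false
namespace Pool.Agent.Lib_helper28

section Transport

variable {F G : Type*} [AddCommMonoid F] [AddCommMonoid G]

theorem rel_map (e : F →+ G) (ρ : Set (F × F)) {x y : F}
    (h : AddConGen.Rel (fun a b => (a, b) ∈ ρ) x y) :
    addConGen (fun a b => (a, b) ∈ Prod.map e e '' ρ) (e x) (e y) := by
  induction h with
  | of x y hxy => exact AddConGen.Rel.of _ _ ⟨(x, y), hxy, rfl⟩
  | refl x => exact AddCon.refl _ _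
  | symm h ih => exact AddCon.symm _ ih
  | trans h1 h2 ih1 ih2 => exact AddCon.trans _ ih1 ih2
  | add h1 h2 ih1 ih2 =>
    rw [map_add e, map_add e]
    exact AddCon.add _ ih1 ih2

theorem IsPres.map {ψ : F →+ ℕ} {φ : G →+ ℕ} (e : F ≃+ G) (he : ∀ x, φ (e x) = ψ x)
    {ρ : Set (F × F)} (h : IsPres ψ ρ) : IsPres φ (Prod.map e e '' ρ) := by
  unfold IsPres
  apply le_antisymm
  · rw [AddCon.addConGen_le]
    rintro a b ⟨p, hp, hpe⟩
    rw [Prod.ext_iff] at hpe
    obtain ⟨h1, h2⟩ := hpe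
    change φ a = φ b
    simp only at h1 h2
    rw [← h1, ← h2]
    change φ (e p.1) = φ (e p.2)
    rw [he, he]
    exact h.eq_of_mem p hp
  · intro x y hxy
    have hxy : φ x = φ y := hxy
    have h1 : ψ (e.symm x) = ψ (e.symm y) := by
      rw [← he, ← he, e.apply_symm_apply, e.apply_symm_apply]; exact hxy
    have h2 := (h.rel_iff _ _).2 h1
    have h3 := rel_map e.toAddMonoidHom ρ h2
    have e1 : e.toAddMonoidHom (e.symm x) = x := e.apply_symm_apply x
    have e2 : e.toAddMonoidHom (e.symm y) = y := e.apply_symm_apply y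
    rw [e1, e2] at h3
    exact h3

/-- a finite presentation contains a minimal presentation. -/
theorem exists_minimal_of_finite {φ : F →+ ℕ} (ρ₀ : Set (F × F)) (hfin : ρ₀.Finite)
    (h : IsPres φ ρ₀) : ∃ ρ, Minimal (IsPres φ) ρ := by
  classical
  have hex : ∃ k : ℕ, ∃ ρ : Set (F × F), ρ.Finite ∧ IsPres φ ρ ∧ ρ.ncard = k :=
    ⟨_, ρ₀, hfin, h, rfl⟩
  obtain ⟨ρ, h1, h2, h3⟩ := Nat.find_spec hex
  refine ⟨ρ, h2, ?_⟩
  intro σ hσ hle
  by_contra hcon
  have hss : σ ⊂ ρ := ⟨hle, hcon⟩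
  have hlt := Set.ncard_lt_ncard hss h1
  rw [h3] at hlt
  exact Nat.find_min hex hlt ⟨σ, h1.subset hle, hσ, rfl⟩

end Transport
end Pool.Agent.Lib_helper28
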